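import Pool.Agent.H13.ISH.ENT

/-!
# Project ISH, module CLA (counting the sets of large contours)
-/

set_option autoImplicit false

namespace Pool.ISH

open MeasureTheory Filter Topology
open scoped Classical Pointwise

namespace Cla

/-- the number of bonds near the boundary circuit -/
theorem card_NR (N : ℕ) (hN : 1 ≤ N) : (NR N).card ≤ 360 * N := by
  set S0 : Finset ℤ := {(N : ℤ), (N : ℤ) + 1, -(N : ℤ), -(N : ℤ) - 1} with hS0
  set T : Finset ℤ := Finset.Icc (-((N : ℤ) + 1)) ((N : ℤ) + 1) with hT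
  set H : Finset ℤ := Finset.Icc (-1) 1 with hH
  set P : Finset (ℤ × ℤ × ℤ × Fin 3) := S0 ×ˢ T ×ˢ H ×ˢ (Finset.univ : Finset (Fin 3)) with hP
  have hsub : NR N ⊆ P.image (fun q => ((![q.1, q.2.1, q.2.2.1] : Site), q.2.2.2)) ∪
      P.image (fun q => ((![q.2.1, q.1, q.2.2.1] : Site), q.2.2.2)) := by
    intro b hb
    rw [NR, Finset.mem_filter, mem_BV] at hb
    obtain ⟨hb, c, hc, hc2, hc0, ht⟩ := hb
    rw [mem_BV, not_or] at hc
    -- coordinates of `b`
    have hbi : ∀ i, |lo b i| ≤ (N : ℤ) + 1 := by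
      intro i
      have h1 := ev_le b.2 i
      rcases hb with h | h
      · have := mem_Vb.1 h i
        rw [abs_le] at *
        constructor <;> omega
      · have := mem_Vb.1 h i
        rw [hi_apply] at this
        rw [abs_le] at *
        constructor <;> omega
    have hlo := ht.1
    have h0 := hlo 0
    have h1 := hlo 1
    have h2 := hlo 2
    have hlc : lo c = c.1 := rfl
    rw [hlc] at h0 h1 h2
    rw [hc0] at h2
    -- the bond `c` is outside
    have hcout : (N : ℤ) + 1 ≤ |c.1 0| ∨ (N : ℤ) + 1 ≤ |c.1 1| := by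
      by_contra hcon
      push Not at hcon
      apply hc.1
      rw [mem_Vb, hlc]
      intro i
      fin_cases i
      · simp only [Fin.zero_eta, Fin.isValue]
        omega
      · simp only [Fin.mk_one, Fin.isValue]
        omega
      · simp only [Fin.reduceFinMk, Fin.isValue]
        rw [hc0]
        simp
    have hb0 := hbi 0
    have hb1 := hbi 1
    have hlb : lo b = b.1 := rfl
    rw [hlb] at h0 h1 h2 hb0 hb1
    have hH' : b.1 2 ∈ H := by
      rw [hH, Finset.mem_Icc]
      rw [abs_le] at h2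
      constructor <;> omega
    have hT0 : b.1 0 ∈ T := by
      rw [hT, Finset.mem_Icc]
      rw [abs_le] at hb0
      constructor <;> omega
    have hT1 : b.1 1 ∈ T := by
      rw [hT, Finset.mem_Icc]
      rw [abs_le] at hb1
      constructor <;> omega
    rw [Finset.mem_union]
    rcases hcout with h | h
    · left
      rw [Finset.mem_image]
      refine ⟨(b.1 0, b.1 1, b.1 2, b.2), ?_, ?_⟩
      · simp only [hP, Finset.mem_product, Finset.mem_univ, and_true]
        refine ⟨?_, hT1, hH'⟩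
        rw [abs_le] at h0 hb0
        simp only [hS0, Finset.mem_insert, Finset.mem_singleton]
        rw [le_abs] at h
        omega
      · refine Prod.ext ?_ rfl
        funext i
        fin_cases i <;> rfl
    · right
      rw [Finset.mem_image]
      refine ⟨(b.1 1, b.1 0, b.1 2, b.2), ?_, ?_⟩
      · simp only [hP, Finset.mem_product, Finset.mem_univ, and_true]
        refine ⟨?_, hT0, hH'⟩
        rw [abs_le] at h1 hb1
        simp only [hS0, Finset.mem_insert, Finset.mem_singleton]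
        rw [le_abs] at h
        omega
      · refine Prod.ext ?_ rfl
        funext i
        fin_cases i <;> rfl
  have hS0c : S0.card ≤ 4 := Finset.card_le_four
  have hTc : T.card = 2 * N + 3 := by
    rw [hT, Int.card_Icc]
    omega
  have hHc : H.card = 3 := by
    rw [hH]
    simp
  have hPc : P.card ≤ 4 * ((2 * N + 3) * (3 * 3)) := by
    rw [hP, Finset.card_product, Finset.card_product, Finset.card_product, hTc, hHc,
      Finset.card_univ, Fintype.card_fin]
    exact Nat.mul_le_mul_right _ hS0c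
  have := Finset.card_le_card hsub
  have h1 := Finset.card_union_le (P.image (fun q => ((![q.1, q.2.1, q.2.2.1] : Site), q.2.2.2)))
    (P.image (fun q => ((![q.2.1, q.1, q.2.2.1] : Site), q.2.2.2)))
  have h2 : (P.image (fun q => ((![q.1, q.2.1, q.2.2.1] : Site), q.2.2.2))).card ≤ P.card :=
    Finset.card_image_le
  have h3 : (P.image (fun q => ((![q.2.1, q.1, q.2.2.1] : Site), q.2.2.2))).card ≤ P.card :=
    Finset.card_image_le
  omega

end Cla

theorem cla (cnt' : CNTStmt) (rot : ROTStmt) : CLAStmt := by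
  refine ⟨360, ?_⟩
  intro N s hN
  have hL : 1 ≤ Lg N := by unfold Lg; omega
  set 𝒯 := (BV N).powerset.filter (fun T => T.card ≤ s / Lg N) with h𝒯
  set 𝒢 := ((NR N).powerset ×ˢ 𝒯).biUnion (fun q => ((BV N).powerset).filter
    (fun G : Finset Bond => q.1 ∪ q.2 ⊆ G ∧ G.card = s ∧
      ∀ b ∈ G, ∃ c ∈ q.1 ∪ q.2, Rch (G : Set Bond) c b)) with h𝒢
  have hsub : (((BV N).powerset).filter (fun G : Finset Bond => G.card = s ∧
      ∀ b ∈ G, (∃ c ∈ G, c ∈ NR N ∧ Rch (G : Set Bond) c b) ∨
      Lg N ≤ (G.filter (fun c => Rch (G : Set Bond) b c)).card)) ⊆ 𝒢 := by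
    intro G hG
    rw [Finset.mem_filter, Finset.mem_powerset] at hG
    obtain ⟨hG1, hG2, hG3⟩ := hG
    obtain ⟨T, hT1, hT2, hT3⟩ := rot G (NR N) (Lg N) hL hG3
    have hTu : T.filter (fun b => b ∈ NR N) ∪ (T \ NR N) = T := by
      ext b
      simp only [Finset.mem_union, Finset.mem_filter, Finset.mem_sdiff]
      by_cases hb : b ∈ NR N <;> simp [hb]
    rw [h𝒢, Finset.mem_biUnion]
    refine ⟨(T.filter (fun b => b ∈ NR N), T \ NR N), ?_, ?_⟩
    · rw [Finset.mem_product, Finset.mem_powerset, h𝒯, Finset.mem_filter, Finset.mem_powerset]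
      refine ⟨fun b hb => (Finset.mem_filter.1 hb).2,
        (Finset.sdiff_subset).trans (hT1.trans hG1), ?_⟩
      rw [Nat.le_div_iff_mul_le (by omega), ← hG2]
      exact hT2
    · rw [Finset.mem_filter, Finset.mem_powerset]
      simp only
      rw [hTu]
      exact ⟨hG1, hT1, hG2, hT3⟩
  have h𝒯c : 𝒯.card ≤ 2 ^ (11 * s) := by
    refine (Ent.small _ _).trans (Ent.num N s _ ?_)
    have h1 := card_BV_le N
    have h2 := Ent.lt_two_pow N
    have h3 : (2 * N + 3) ≤ 2 ^ (Lg N + 2) := by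
      have : 2 ^ (Lg N + 2) = 4 * 2 ^ Lg N := by ring
      omega
    have h4 : (2 * N + 3) ^ 3 ≤ 2 ^ (3 * Lg N + 6) := by
      calc (2 * N + 3) ^ 3 ≤ (2 ^ (Lg N + 2)) ^ 3 := Nat.pow_le_pow_left h3 3
        _ = 2 ^ (3 * Lg N + 6) := by rw [← pow_mul]; ring_nf
    have h5 : 2 ^ (3 * Lg N + 8) = 4 * 2 ^ (3 * Lg N + 6) := by
      rw [show 3 * Lg N + 8 = (3 * Lg N + 6) + 2 by ring, pow_add]
      ring
    have h6 : 1 ≤ 2 ^ (3 * Lg N + 6) := Nat.one_le_two_pow
    omega
  have hNR : (NR N).powerset.card ≤ 2 ^ (360 * N) := by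
    rw [Finset.card_powerset]
    exact Nat.pow_le_pow_right (by norm_num) (Cla.card_NR N hN)
  refine (Finset.card_le_card hsub).trans ?_
  refine (Finset.card_biUnion_le).trans ?_
  calc ∑ q ∈ (NR N).powerset ×ˢ 𝒯, (((BV N).powerset).filter
        (fun G : Finset Bond => q.1 ∪ q.2 ⊆ G ∧ G.card = s ∧
        ∀ b ∈ G, ∃ c ∈ q.1 ∪ q.2, Rch (G : Set Bond) c b)).card
        ≤ ∑ q ∈ (NR N).powerset ×ˢ 𝒯, 2 ^ (81 * s) :=
        Finset.sum_le_sum (fun q _ => cnt' (BV N) (q.1 ∪ q.2) s)
    _ = ((NR N).powerset.card * 𝒯.card) * 2 ^ (81 * s) := by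
        rw [Finset.sum_const, smul_eq_mul, Finset.card_product]
    _ ≤ (2 ^ (360 * N) * 2 ^ (11 * s)) * 2 ^ (81 * s) :=
        Nat.mul_le_mul_right _ (Nat.mul_le_mul hNR h𝒯c)
    _ = 2 ^ (360 * N + 92 * s) := by
        rw [← pow_add, ← pow_add]
        ring_nf
    _ ≤ 2 ^ (360 * (N + s)) := Nat.pow_le_pow_right (by norm_num) (by omega)

end Pool.ISH
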