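import Pool.Agent.H40.ISH.Stmts

/-!
# Project ISH, module ENT (the number of pieces)
-/

set_option autoImplicit false

namespace Pool.ISH

open MeasureTheory Filter Topology
open scoped Classical Pointwise

namespace Ent

/-- the number of subsets with at most `k` elements -/
theorem small {α : Type*} [DecidableEq α] (U : Finset α) (k : ℕ) :
    (U.powerset.filter (fun T => T.card ≤ k)).card ≤ (U.card + 1) ^ k := by
  induction k with
  | zero =>
    have : U.powerset.filter (fun T => T.card ≤ 0) ⊆ {∅} := by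
      intro T hT
      rw [Finset.mem_filter] at hT
      rw [Finset.mem_singleton, ← Finset.card_eq_zero]
      omega
    simpa using Finset.card_le_card this
  | succ k ih =>
    set F := U.powerset.filter (fun T => T.card ≤ k) with hF
    have hsub : U.powerset.filter (fun T => T.card ≤ k + 1) ⊆
        F ∪ (U ×ˢ F).image (fun q => insert q.1 q.2) := by
      intro T hT
      rw [Finset.mem_filter, Finset.mem_powerset] at hT
      rw [Finset.mem_union]
      by_cases h : T.card ≤ k
      · left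
        rw [hF, Finset.mem_filter, Finset.mem_powerset]
        exact ⟨hT.1, h⟩
      · right
        obtain ⟨a, ha⟩ : T.Nonempty := by
          rw [← Finset.card_pos]
          omega
        rw [Finset.mem_image]
        refine ⟨(a, T.erase a), ?_, Finset.insert_erase ha⟩
        rw [Finset.mem_product, hF, Finset.mem_filter, Finset.mem_powerset]
        refine ⟨hT.1 ha, (Finset.erase_subset _ _).trans hT.1, ?_⟩
        have := Finset.card_erase_of_mem ha
        simp only
        omega
    calc (U.powerset.filter (fun T => T.card ≤ k + 1)).card ≤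
          (F ∪ (U ×ˢ F).image (fun q => insert q.1 q.2)).card := Finset.card_le_card hsub
      _ ≤ F.card + (U ×ˢ F).card :=
          (Finset.card_union_le _ _).trans (Nat.add_le_add_left Finset.card_image_le _)
      _ = (U.card + 1) * F.card := by rw [Finset.card_product]; ring
      _ ≤ (U.card + 1) * (U.card + 1) ^ k := Nat.mul_le_mul_left _ ih
      _ = _ := by ring

theorem lt_two_pow (n : ℕ) : n < 2 ^ Lg n := by
  unfold Lg
  exact Nat.lt_pow_succ_log_self (by norm_num) n

theorem BQ_mono (x : Site) {r s : ℕ} (h : r ≤ s) : BQ x r ⊆ BQ x s := by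
  intro b hb
  rw [mem_BQ] at *
  exact ⟨Qb_mono x h hb.1, Qb_mono x h hb.2⟩

/-- the number of bonds to the power `s / Lg r` -/
theorem num (r s M : ℕ) (hM : M + 1 ≤ 2 ^ (3 * Lg r + 8)) :
    (M + 1) ^ (s / Lg r) ≤ 2 ^ (11 * s) := by
  calc (M + 1) ^ (s / Lg r) ≤ (2 ^ (3 * Lg r + 8)) ^ (s / Lg r) := Nat.pow_le_pow_left hM _
    _ = 2 ^ ((3 * Lg r + 8) * (s / Lg r)) := by rw [pow_mul]
    _ ≤ 2 ^ (11 * s) := by
        refine Nat.pow_le_pow_right (by norm_num) ?_
        have h1 : 1 ≤ Lg r := by unfold Lg; omega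
        have h2 : 3 * Lg r + 8 ≤ 11 * Lg r := by omega
        calc (3 * Lg r + 8) * (s / Lg r) ≤ (11 * Lg r) * (s / Lg r) :=
              Nat.mul_le_mul_right _ h2
          _ = 11 * (Lg r * (s / Lg r)) := by ring
          _ ≤ 11 * s := Nat.mul_le_mul_left _ (Nat.mul_div_le s (Lg r))

end Ent

theorem ent (cnt' : CNTStmt) (det : DETStmt) : ENTStmt := by
  intro x r s hr
  have hL : 1 ≤ Lg r := by unfold Lg; omega
  set g : Finset Site → Finset Bond := fun D => (BQ x r).filter (fun b => b ∈ bd (D : Set Site))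
    with hg
  set 𝒯 := (BQ x r).powerset.filter (fun T => T.card ≤ s / Lg r) with h𝒯
  set 𝒢 := 𝒯.biUnion (fun T => ((BQ x r).powerset).filter (fun G : Finset Bond => T ⊆ G ∧
    G.card = s ∧ ∀ b ∈ G, ∃ c ∈ T, Rch (G : Set Bond) c b)) with h𝒢
  -- the image
  have himg : (Pc x r s).image g ⊆ 𝒢 := by
    intro G hG
    obtain ⟨D, hD, rfl⟩ := Finset.mem_image.1 hG
    rw [Pc, Finset.mem_filter, Finset.mem_powerset] at hD
    obtain ⟨hD1, hD2, hD3, hD4⟩ := hD
    have hgs : (g D).card = s := hD3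
    have hset : ((g D : Finset Bond) : Set Bond) = {a | a ∈ BQ x r ∧ a ∈ bd (D : Set Site)} := by
      ext b
      simp [hg]
    rw [h𝒢, Finset.mem_biUnion]
    refine ⟨(g D).filter (fun b => b ∉ BQ x (r - 1)), ?_, ?_⟩
    · rw [h𝒯, Finset.mem_filter, Finset.mem_powerset]
      refine ⟨(Finset.filter_subset _ _).trans (Finset.filter_subset _ _), ?_⟩
      rw [Nat.le_div_iff_mul_le (by omega)]
      refine le_trans (Nat.mul_le_mul_right _ ?_) hD4
      have h1 := Finset.card_filter_add_card_filter_not (s := g D) (fun b => b ∈ BQ x (r - 1))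
      have h2 : ((g D).filter (fun b => b ∈ BQ x (r - 1))).card = sf (D : Set Site) x (r - 1) := by
        unfold sf
        congr 1
        ext b
        simp only [hg, Finset.mem_filter]
        exact ⟨fun h => ⟨h.2, h.1.2⟩, fun h => ⟨⟨Ent.BQ_mono x (Nat.sub_le r 1) h.1, h.2⟩, h.1⟩⟩
      have h3 : (g D).card = sf (D : Set Site) x r := rfl
      omega
    · rw [Finset.mem_filter, Finset.mem_powerset]
      refine ⟨Finset.filter_subset _ _, Finset.filter_subset _ _, hgs, ?_⟩
      intro b hb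
      simp only [hg, Finset.mem_filter] at hb
      obtain ⟨c, hc1, hc2, hc3, hc4⟩ := hD2 b hb.1 hb.2
      refine ⟨c, ?_, ?_⟩
      · simp only [hg, Finset.mem_filter]
        exact ⟨⟨hc1, hc3⟩, hc2⟩
      · rw [hset]
        exact hc4
  -- the fibres
  have hfib : (Pc x r s).card ≤ 2 * ((Pc x r s).image g).card := by
    refine Finset.card_le_mul_card_image _ 2 ?_
    intro G hG
    obtain ⟨D, hD, rfl⟩ := Finset.mem_image.1 hG
    have hsub : (Pc x r s).filter (fun D' => g D' = g D) ⊆ {D, Qb x r \ D} := by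
      intro D' hD'
      rw [Finset.mem_filter] at hD'
      have h1 := (Finset.mem_powerset.1 (Finset.mem_filter.1 hD).1)
      have h2 := (Finset.mem_powerset.1 (Finset.mem_filter.1 hD'.1).1)
      have := det x r D D' h1 h2 (by
        intro b hb
        have h3 := Finset.ext_iff.1 hD'.2 b
        simp only [hg, Finset.mem_filter] at h3
        exact ⟨fun h => (h3.2 ⟨hb, h⟩).2, fun h => (h3.1 ⟨hb, h⟩).2⟩)
      rw [Finset.mem_insert, Finset.mem_singleton]
      exact this
    exact (Finset.card_le_card hsub).trans Finset.card_le_two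
  have h𝒯c : 𝒯.card ≤ 2 ^ (11 * s) := by
    refine (Ent.small _ _).trans (Ent.num r s _ ?_)
    have h1 := card_BQ_le x r
    have h2 := Ent.lt_two_pow r
    have h3 : (2 * r + 1) ≤ 2 ^ (Lg r + 1) := by
      rw [pow_succ]
      omega
    have h4 : (2 * r + 1) ^ 3 ≤ 2 ^ (3 * Lg r + 3) := by
      calc (2 * r + 1) ^ 3 ≤ (2 ^ (Lg r + 1)) ^ 3 := Nat.pow_le_pow_left h3 3
        _ = 2 ^ (3 * Lg r + 3) := by rw [← pow_mul]; ring_nf
    have h5 : 2 ^ (3 * Lg r + 8) = 32 * 2 ^ (3 * Lg r + 3) := by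
      rw [show 3 * Lg r + 8 = (3 * Lg r + 3) + 5 by ring, pow_add]
      ring
    have h6 : 1 ≤ 2 ^ (3 * Lg r + 3) := Nat.one_le_two_pow
    omega
  have h𝒢c : 𝒢.card ≤ 2 ^ (11 * s) * 2 ^ (81 * s) := by
    refine (Finset.card_biUnion_le).trans ?_
    calc ∑ T ∈ 𝒯, (((BQ x r).powerset).filter (fun G : Finset Bond => T ⊆ G ∧
          G.card = s ∧ ∀ b ∈ G, ∃ c ∈ T, Rch (G : Set Bond) c b)).card
          ≤ ∑ T ∈ 𝒯, 2 ^ (81 * s) := Finset.sum_le_sum (fun T _ => cnt' (BQ x r) T s)
      _ = 𝒯.card * 2 ^ (81 * s) := by rw [Finset.sum_const, smul_eq_mul]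
      _ ≤ _ := Nat.mul_le_mul_right _ h𝒯c
  calc (Pc x r s).card ≤ 2 * ((Pc x r s).image g).card := hfib
    _ ≤ 2 * 𝒢.card := Nat.mul_le_mul_left _ (Finset.card_le_card himg)
    _ ≤ 2 * (2 ^ (11 * s) * 2 ^ (81 * s)) := Nat.mul_le_mul_left _ h𝒢c
    _ = 2 ^ (92 * s + 1) := by
        rw [← pow_add, pow_succ]
        ring_nf
    _ ≤ 2 ^ (100 * s + 1) := Nat.pow_le_pow_right (by norm_num) (by omega)

end Pool.ISH
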