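import Pool.Agent.H40.ISH.Stmts

/-!
# Project ISH, module ISO (isoperimetric inequality in a cube)
-/

set_option autoImplicit false

namespace Pool.ISH

open MeasureTheory Filter Topology
open scoped Classical Pointwise

namespace Iso

/-- either membership in `D` is constant on the part of the line in the cube, or there is a
boundary bond on the line -/
theorem line (D : Set Site) (x : Site) (r : ℕ) (i : Fin 3) (y : Site) (hy : y ∈ Qb x r) :
    (∀ t : ℤ, |t - x i| ≤ r → (Function.update y i t ∈ D ↔ y ∈ D)) ∨
      ∃ b ∈ BQ x r, b ∈ bd D ∧ b.2 = i ∧ Function.update b.1 i 0 = Function.update y i 0 := by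
  by_cases h : ∃ b ∈ BQ x r, b ∈ bd D ∧ b.2 = i ∧
      Function.update b.1 i 0 = Function.update y i 0
  · exact Or.inr h
  left
  push Not at h
  have hy' := mem_Qb.1 hy
  have hmem : ∀ t : ℤ, |t - x i| ≤ r → Function.update y i t ∈ Qb x r := by
    intro t ht
    rw [mem_Qb]
    intro j
    by_cases hj : j = i
    · subst hj
      rw [Function.update_self]
      exact ht
    · rw [Function.update_of_ne hj]
      exact hy' j
  have step : ∀ t : ℤ, |t - x i| ≤ r → |t + 1 - x i| ≤ r →
      (Function.update y i (t + 1) ∈ D ↔ Function.update y i t ∈ D) := by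
    intro t h1 h2
    have hhi : hi ((Function.update y i t, i) : Bond) = Function.update y i (t + 1) := by
      funext j
      rw [hi_apply]
      by_cases hj : j = i
      · subst hj
        simp [lo, ev_same]
      · simp only [lo]
        rw [ev_ne hj, Function.update_of_ne hj, Function.update_of_ne hj, add_zero]
    have hb := h (Function.update y i t, i) (by
      rw [mem_BQ, hhi]
      exact ⟨hmem t h1, hmem (t + 1) h2⟩)
    by_contra hcon
    refine hb ?_ rfl ?_
    · rw [mem_bd, hhi]
      simp only [lo]
      tauto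
    · simp
  have key : ∀ n : ℕ, n ≤ 2 * r →
      (Function.update y i (x i - r + n) ∈ D ↔ Function.update y i (x i - r) ∈ D) := by
    intro n
    induction n with
    | zero => intro _; simp
    | succ n ih =>
      intro hn
      rw [← ih (by omega)]
      have := step (x i - r + n) (by rw [abs_le]; constructor <;> omega)
        (by rw [abs_le]; constructor <;> omega)
      rw [← this]
      have e : x i - (r : ℤ) + ((n + 1 : ℕ) : ℤ) = x i - r + n + 1 := by push_cast; ring
      rw [e]
  have key2 : ∀ t : ℤ, |t - x i| ≤ r →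
      (Function.update y i t ∈ D ↔ Function.update y i (x i - r) ∈ D) := by
    intro t ht
    rw [abs_le] at ht
    have := key (t - (x i - r)).toNat (by omega)
    have e : x i - (r : ℤ) + (((t - (x i - r)).toNat : ℕ) : ℤ) = t := by omega
    rwa [e] at this
  intro t ht
  have h1 := key2 (y i) (hy' i)
  rw [Function.update_eq_self] at h1
  rw [key2 t ht, h1]

/-- the number of sites of the cube on a line -/
theorem fib (x : Site) (r : ℕ) (i : Fin 3) (y : Site) (hy : y ∈ Qb x r) (D : Set Site)
    (hD : ∀ t : ℤ, |t - x i| ≤ r → Function.update y i t ∈ D) :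
    2 * r + 1 ≤ (((Qb x r).filter (fun z => z ∈ D)).filter
      (fun z => Function.update z i 0 = Function.update y i 0)).card := by
  have hy' := mem_Qb.1 hy
  have hinj : Function.Injective (fun t : ℤ => Function.update y i t) := by
    intro s t h
    have := congrFun h i
    simpa using this
  have hsub : (Finset.Icc (x i - r) (x i + r)).image (fun t : ℤ => Function.update y i t) ⊆
      (((Qb x r).filter (fun z => z ∈ D)).filter
        (fun z => Function.update z i 0 = Function.update y i 0)) := by
    intro z hz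
    obtain ⟨t, ht, rfl⟩ := Finset.mem_image.1 hz
    rw [Finset.mem_Icc] at ht
    have ht' : |t - x i| ≤ r := by
      rw [abs_le]
      constructor <;> omega
    simp only [Finset.mem_filter, Function.update_idem, and_true]
    refine ⟨?_, hD t ht'⟩
    rw [mem_Qb]
    intro j
    by_cases hj : j = i
    · subst hj
      rw [Function.update_self]
      exact ht'
    · rw [Function.update_of_ne hj]
      exact hy' j
  have := Finset.card_le_card hsub
  rw [Finset.card_image_of_injective _ hinj, Int.card_Icc] at this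
  omega

/-- the number of lines in direction `i` meeting `D` -/
theorem dir (D : Set Site) (x : Site) (r : ℕ) (i : Fin 3) :
    (2 * r + 1) * (((Qb x r).filter (fun z => z ∈ D)).image
      (fun z => Function.update z i 0)).card ≤ cnt D x r + (2 * r + 1) *
      (((BQ x r).filter (fun b => b ∈ bd D)).filter (fun b => b.2 = i)).card := by
  set E := (Qb x r).filter (fun z => z ∈ D) with hE
  set I := E.image (fun z => Function.update z i 0) with hI
  set F := I.filter (fun π => 2 * r + 1 ≤
    (E.filter (fun z => Function.update z i 0 = π)).card) with hF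
  have h1 : I.card = F.card + (I \ F).card := by
    have hFI : F ⊆ I := Finset.filter_subset _ _
    have := Finset.card_sdiff_add_card_eq_card hFI
    omega
  have h2 : (2 * r + 1) * F.card ≤ cnt D x r := by
    have e1 : cnt D x r = ∑ π ∈ I, (E.filter (fun z => Function.update z i 0 = π)).card := by
      rw [cnt, hI]
      exact Finset.card_eq_sum_card_image _ _
    rw [e1]
    calc (2 * r + 1) * F.card = ∑ π ∈ F, (2 * r + 1) := by
          rw [Finset.sum_const, smul_eq_mul, mul_comm]
      _ ≤ ∑ π ∈ F, (E.filter (fun z => Function.update z i 0 = π)).card :=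
          Finset.sum_le_sum (fun π hπ => (Finset.mem_filter.1 hπ).2)
      _ ≤ _ := Finset.sum_le_sum_of_subset (Finset.filter_subset _ _)
  have h3 : (I \ F).card ≤
      (((BQ x r).filter (fun b => b ∈ bd D)).filter (fun b => b.2 = i)).card := by
    refine (Finset.card_le_card (t := ((((BQ x r).filter (fun b => b ∈ bd D)).filter
      (fun b => b.2 = i)).image (fun b => Function.update b.1 i 0))) ?_).trans
      Finset.card_image_le
    intro π hπ
    rw [Finset.mem_sdiff] at hπ
    obtain ⟨hπ, hπF⟩ := hπ
    obtain ⟨y, hy, rfl⟩ := Finset.mem_image.1 hπ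
    have hy2 := Finset.mem_filter.1 hy
    rcases line D x r i y hy2.1 with h | ⟨b, hb, hb1, hb2, hb3⟩
    · exfalso
      refine hπF (Finset.mem_filter.2 ⟨hπ, ?_⟩)
      exact fib x r i y hy2.1 D (fun t ht => (h t ht).2 hy2.2)
    · refine Finset.mem_image.2 ⟨b, ?_, hb3⟩
      rw [Finset.mem_filter, Finset.mem_filter]
      exact ⟨⟨hb, hb1⟩, hb2⟩
  rw [h1, mul_add]
  exact Nat.add_le_add h2 (Nat.mul_le_mul_left _ h3)

theorem amgm (p q s a : ℝ) (hp : 0 ≤ p) (hq : 0 ≤ q) (hs : 0 ≤ s)
    (h : a ^ 6 ≤ p * q * s) : 3 * a ^ 2 ≤ p + q + s := by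
  by_contra hcon
  push Not at hcon
  have h1 : 27 * (p * q * s) ≤ (p + q + s) ^ 3 := by
    nlinarith [mul_nonneg hp (sq_nonneg (q - s)), mul_nonneg hq (sq_nonneg (p - s)),
      mul_nonneg hs (sq_nonneg (p - q)), mul_nonneg hp (sq_nonneg (p - q)),
      mul_nonneg hp (sq_nonneg (p - s)), mul_nonneg hq (sq_nonneg (q - s)),
      mul_nonneg hq (sq_nonneg (q - p)), mul_nonneg hs (sq_nonneg (s - p)),
      mul_nonneg hs (sq_nonneg (s - q))]
  have h2 : (p + q + s) ^ 3 < (3 * a ^ 2) ^ 3 :=
    pow_lt_pow_left₀ hcon (by positivity) (by norm_num)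
  have h3 : (3 * a ^ 2) ^ 3 = 27 * a ^ 6 := by ring
  linarith

end Iso

theorem iso (lwh : LWHStmt) : ISOStmt := by
  intro D x r a ha h
  have _ := ha
  set E := (Qb x r).filter (fun z => z ∈ D) with hE
  have hc : cnt D x r = E.card := rfl
  have hL := lwh E
  rw [Fin.prod_univ_three] at hL
  have hsf : sf D x r = ∑ i : Fin 3,
      (((BQ x r).filter (fun b => b ∈ bd D)).filter (fun b => b.2 = i)).card := by
    rw [sf]
    exact Finset.card_eq_sum_card_fiberwise (f := fun b : Bond => b.2) (t := Finset.univ)
      (fun _ _ => Finset.mem_coe.2 (Finset.mem_univ _))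
  rw [Fin.sum_univ_three] at hsf
  have hr : (0 : ℝ) < 2 * r + 1 := by positivity
  have hd : ∀ i : Fin 3, ((E.image (fun z => Function.update z i 0)).card : ℝ) ≤
      (cnt D x r : ℝ) / (2 * r + 1) +
        ((((BQ x r).filter (fun b => b ∈ bd D)).filter (fun b => b.2 = i)).card : ℝ) := by
    intro i
    have h1 := Iso.dir D x r i
    have h2 : ((2 * r + 1 : ℕ) : ℝ) * ((E.image (fun z => Function.update z i 0)).card : ℝ) ≤
        (cnt D x r : ℝ) + ((2 * r + 1 : ℕ) : ℝ) *
        ((((BQ x r).filter (fun b => b ∈ bd D)).filter (fun b => b.2 = i)).card : ℝ) := by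
      exact_mod_cast h1
    push_cast at h2
    rw [← sub_le_iff_le_add, le_div_iff₀ hr]
    linarith
  have hL' : ((cnt D x r : ℝ)) ^ 2 ≤ ((E.image (fun z => Function.update z 0 0)).card : ℝ) *
      ((E.image (fun z => Function.update z 1 0)).card : ℝ) *
      ((E.image (fun z => Function.update z 2 0)).card : ℝ) := by
    rw [hc]
    exact_mod_cast hL
  have h6 : a ^ 6 ≤ ((cnt D x r : ℝ)) ^ 2 := by
    have : (a ^ 3) ^ 2 ≤ ((cnt D x r : ℝ)) ^ 2 := pow_le_pow_left₀ (by positivity) h 2
    calc a ^ 6 = (a ^ 3) ^ 2 := by ring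
      _ ≤ _ := this
  have h7 := Iso.amgm _ _ _ a (Nat.cast_nonneg _) (Nat.cast_nonneg _) (Nat.cast_nonneg _)
    (h6.trans hL')
  have h0 := hd 0
  have h1 := hd 1
  have h2 := hd 2
  rw [hsf]
  push_cast
  have e : 3 * (cnt D x r : ℝ) / (2 * r + 1) = (cnt D x r : ℝ) / (2 * r + 1) +
      (cnt D x r : ℝ) / (2 * r + 1) + (cnt D x r : ℝ) / (2 * r + 1) := by ring
  rw [e]
  linarith

end Pool.ISH
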