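import Pool.Agent.H40.ISH.Stmts

/-!
# Project ISH, module PUR (pure cubes of both signs)
-/

set_option autoImplicit false

namespace Pool.ISH

open MeasureTheory Filter Topology
open scoped Classical Pointwise

namespace Pur

/-- the number of sites of spin `s` in a cube -/
noncomputable def ns (s : Bool) (A : Finset Site) (z : Site) (l : ℕ) : ℕ :=
  ((cube z l).filter (fun x => (x ∈ A ↔ s = true))).card

/-- the number of boundary bonds in a cube -/
noncomputable def bz (N : ℕ) (A : Finset Site) (z : Site) (l : ℕ) : ℕ :=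
  ((BC z l).filter (fun b => b ∈ bd (Pl N A))).card

theorem mem_tiles {N l : ℕ} {z : Site} (h : z ∈ tiles N l) : cube z l ⊆ Vb N := by
  rw [tiles, Finset.mem_filter] at h
  exact h.2.1

theorem ns_bz (bpi : BPIStmt) (N l : ℕ) (A : Finset Site) (z : Site) (hz : cube z l ⊆ Vb N)
    (s : Bool) : 2 * (ns s A z l : ℝ) * ((l : ℝ) ^ 3 - ns s A z l) ≤
      (l : ℝ) ^ 4 * (bz N A z l : ℝ) := by
  have h := bpi (Pl N A) z l
  have h1 : ∀ x ∈ cube z l, (x ∈ Pl N A ↔ x ∈ A) := by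
    intro x hx
    have := hz hx
    simp only [Pl, Set.mem_ofPred_eq, this, true_and, not_true_eq_false, false_and, or_false]
  have e1 : (cube z l).filter (fun x => x ∈ Pl N A) = (cube z l).filter (fun x => x ∈ A) :=
    Finset.filter_congr h1
  have e2 : (cube z l).filter (fun x => x ∉ Pl N A) = (cube z l).filter (fun x => x ∉ A) :=
    Finset.filter_congr (fun x hx => not_congr (h1 x hx))
  rw [e1, e2] at h
  have hsum := Finset.card_filter_add_card_filter_not (s := cube z l) (fun x => x ∈ A)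
  rw [card_cube] at hsum
  have hsum' : (((cube z l).filter (fun x => x ∈ A)).card : ℝ) +
      (((cube z l).filter (fun x => x ∉ A)).card : ℝ) = (l : ℝ) ^ 3 := by exact_mod_cast hsum
  have h' : 2 * (((cube z l).filter (fun x => x ∈ A)).card : ℝ) *
      (((cube z l).filter (fun x => x ∉ A)).card : ℝ) ≤ (l : ℝ) ^ 4 * (bz N A z l : ℝ) := by
    exact_mod_cast h
  cases s with
  | true =>
    have e : ns true A z l = ((cube z l).filter (fun x => x ∈ A)).card := by
      unfold ns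
      congr 1
      exact Finset.filter_congr (fun x _ => by simp)
    rw [e, ← hsum']
    linarith
  | false =>
    have e : ns false A z l = ((cube z l).filter (fun x => x ∉ A)).card := by
      unfold ns
      congr 1
      exact Finset.filter_congr (fun x _ => by simp)
    rw [e, ← hsum']
    linarith

/-- a tile in which fewer than seven eighths of the sites have spin `s` -/
theorem tile (bpi : BPIStmt) (N l : ℕ) (hl : 1 ≤ l) (A : Finset Site) (z : Site)
    (hz : cube z l ⊆ Vb N) (s : Bool) (h : 8 * (ns s A z l : ℝ) < 7 * (l : ℝ) ^ 3) :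
    (ns s A z l : ℝ) ≤ (l : ℝ) ^ 3 / 8 + 5 * l * (bz N A z l : ℝ) := by
  have hb : (0 : ℝ) ≤ bz N A z l := Nat.cast_nonneg _
  have hl' : (1 : ℝ) ≤ l := by exact_mod_cast hl
  have hlb : 0 ≤ 5 * (l : ℝ) * (bz N A z l : ℝ) := by positivity
  by_cases h8 : 8 * (ns s A z l : ℝ) ≤ (l : ℝ) ^ 3
  · linarith
  push Not at h8
  have h1 := ns_bz bpi N l A z hz s
  set n := (ns s A z l : ℝ) with hn
  have h3 : 0 < (l : ℝ) ^ 3 := by positivity
  have h2 : 7 / 32 * ((l : ℝ) ^ 3) ^ 2 ≤ 2 * n * ((l : ℝ) ^ 3 - n) := by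
    nlinarith [mul_pos (sub_pos.2 h8) (sub_pos.2 h)]
  have h4 : 7 / 32 * ((l : ℝ) ^ 3) ^ 2 ≤ (l : ℝ) ^ 4 * (bz N A z l : ℝ) := h2.trans h1
  have h5 : 7 / 32 * (l : ℝ) ^ 2 ≤ (bz N A z l : ℝ) := by
    have h6 : (l : ℝ) ^ 4 * (7 / 32 * (l : ℝ) ^ 2) ≤ (l : ℝ) ^ 4 * (bz N A z l : ℝ) := by
      calc (l : ℝ) ^ 4 * (7 / 32 * (l : ℝ) ^ 2) = 7 / 32 * ((l : ℝ) ^ 3) ^ 2 := by ring
        _ ≤ _ := h4
    exact le_of_mul_le_mul_left h6 (by positivity)
  have h6 : (l : ℝ) * (7 / 32 * (l : ℝ) ^ 2) ≤ l * (bz N A z l : ℝ) :=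
    mul_le_mul_of_nonneg_left h5 (by positivity)
  have h7 : n < (l : ℝ) ^ 3 := by linarith
  have h8 : (l : ℝ) * (7 / 32 * (l : ℝ) ^ 2) = 7 / 32 * (l : ℝ) ^ 3 := by ring
  nlinarith [h6, h7, h8, h3]

theorem sum_bz (til : TILStmt) (N l : ℕ) (hl : 1 ≤ l) (A : Finset Site) :
    ∑ z ∈ tiles N l, bz N A z l ≤ en N A := by
  have hd := (til N l hl).1
  rw [en]
  unfold bz
  rw [← Finset.card_biUnion]
  · refine Finset.card_le_card ?_
    intro b hb
    rw [Finset.mem_biUnion] at hb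
    obtain ⟨z, hz, hb⟩ := hb
    rw [Finset.mem_filter, mem_BC] at hb
    rw [Finset.mem_filter, mem_BV]
    exact ⟨Or.inl (mem_tiles hz hb.1.1), hb.2⟩
  · intro z hz z' hz' hzz
    have := Finset.disjoint_left.1 (hd z hz z' hz' hzz)
    change Disjoint ((BC z l).filter (fun b => b ∈ bd (Pl N A)))
      ((BC z' l).filter (fun b => b ∈ bd (Pl N A)))
    rw [Finset.disjoint_left]
    intro b hb hb'
    rw [Finset.mem_filter, mem_BC] at hb hb'
    exact this hb.1.1 hb'.1.1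

/-- the sites of spin `s` in the box -/
theorem total (til : TILStmt) (N l : ℕ) (hl : 1 ≤ l) (A : Finset Site) (s : Bool) :
    ((Vb N).filter (fun x => (x ∈ A ↔ s = true))).card ≤
      ∑ z ∈ tiles N l, ns s A z l + 6 * l * (2 * N + 1) ^ 2 := by
  obtain ⟨hd, h1, h2⟩ := til N l hl
  set U := (tiles N l).biUnion (fun z => cube z l) with hU
  have hUsub : U ⊆ Vb N := by
    intro x hx
    rw [hU, Finset.mem_biUnion] at hx
    obtain ⟨z, hz, hx⟩ := hx
    exact mem_tiles hz hx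
  have hUc : U.card = (tiles N l).card * l ^ 3 := by
    rw [hU, Finset.card_biUnion]
    · simp_rw [card_cube]
      rw [Finset.sum_const, smul_eq_mul]
    · exact fun z hz z' hz' hzz => hd z hz z' hz' hzz
  have hsd := Finset.card_sdiff_add_card_eq_card hUsub
  rw [card_Vb] at hsd
  have hsub : (Vb N).filter (fun x => (x ∈ A ↔ s = true)) ⊆
      (tiles N l).biUnion (fun z => (cube z l).filter (fun x => (x ∈ A ↔ s = true))) ∪
        (Vb N \ U) := by
    intro x hx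
    rw [Finset.mem_filter] at hx
    rw [Finset.mem_union]
    by_cases hxU : x ∈ U
    · left
      rw [hU, Finset.mem_biUnion] at hxU
      obtain ⟨z, hz, hxz⟩ := hxU
      rw [Finset.mem_biUnion]
      exact ⟨z, hz, Finset.mem_filter.2 ⟨hxz, hx.2⟩⟩
    · right
      exact Finset.mem_sdiff.2 ⟨hx.1, hxU⟩
  have h3 : ((tiles N l).biUnion
      (fun z => (cube z l).filter (fun x => (x ∈ A ↔ s = true)))).card ≤
      ∑ z ∈ tiles N l, ns s A z l := Finset.card_biUnion_le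
  have h4 := (Finset.card_le_card hsub).trans (Finset.card_union_le _ _)
  omega

theorem card_ge (N : ℕ) (A : Finset Site) (hA : A ⊆ Vb N) (hm : |mg N A| ≤ 2 * (N : ℤ) ^ 3)
    (s : Bool) : 3 * N ^ 3 ≤ ((Vb N).filter (fun x => (x ∈ A ↔ s = true))).card := by
  have hsum := Finset.card_filter_add_card_filter_not (s := Vb N) (fun x => x ∈ A)
  have hAf : (Vb N).filter (fun x => x ∈ A) = A := by
    ext x
    rw [Finset.mem_filter]
    exact ⟨fun h => h.2, fun h => ⟨hA h, h⟩⟩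
  rw [hAf, card_Vb] at hsum
  rw [mg, card_Vb, abs_le] at hm
  have h8 : (8 : ℤ) * (N : ℤ) ^ 3 ≤ ((2 * N + 1 : ℕ) : ℤ) ^ 3 := by
    push_cast
    have : (0 : ℤ) ≤ N := by positivity
    nlinarith [sq_nonneg (N : ℤ), mul_nonneg this this]
  have hsum' : (A.card : ℤ) + (((Vb N).filter (fun x => x ∉ A)).card : ℤ) =
      ((2 * N + 1 : ℕ) : ℤ) ^ 3 := by exact_mod_cast hsum
  obtain ⟨m1, m2⟩ := hm
  push_cast at m1 m2 h8 hsum'
  cases s with
  | true =>
    have e : (Vb N).filter (fun x => (x ∈ A ↔ true = true)) = A := by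
      rw [← hAf]
      exact Finset.filter_congr (fun x _ => by simp [hAf])
    rw [e]
    have : (3 : ℤ) * (N : ℤ) ^ 3 ≤ (A.card : ℤ) := by linarith
    exact_mod_cast this
  | false =>
    have e : (Vb N).filter (fun x => (x ∈ A ↔ false = true)) =
        (Vb N).filter (fun x => x ∉ A) := Finset.filter_congr (fun x _ => by simp)
    rw [e]
    have : (3 : ℤ) * (N : ℤ) ^ 3 ≤ (((Vb N).filter (fun x => x ∉ A)).card : ℤ) := by linarith
    exact_mod_cast this

theorem symm_le (U A A' : Finset Site) (s : Bool) :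
    (U.filter (fun x => (x ∈ A ↔ s = true))).card ≤
      (U.filter (fun x => (x ∈ A' ↔ s = true))).card + (symmDiff A A').card := by
  refine (Finset.card_le_card (t := U.filter (fun x => (x ∈ A' ↔ s = true)) ∪
    symmDiff A A') ?_).trans (Finset.card_union_le _ _)
  intro x hx
  rw [Finset.mem_filter] at hx
  rw [Finset.mem_union, Finset.mem_filter, Finset.mem_symmDiff]
  by_cases h1 : x ∈ A <;> by_cases h2 : x ∈ A'
  · left
    refine ⟨hx.1, ?_⟩
    have := hx.2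
    simp only [h1, h2] at this ⊢
    exact this
  · right
    left
    exact ⟨h1, h2⟩
  · right
    right
    exact ⟨h2, h1⟩
  · left
    refine ⟨hx.1, ?_⟩
    have := hx.2
    simp only [h1, h2] at this ⊢
    exact this

end Pur

theorem pur (eta : ETAStmt) (bpi : BPIStmt) (til : TILStmt) : PURStmt := by
  intro C hC
  set κ : ℝ := 1 / (100 * (C + 1)) with hκ
  have hκ0 : 0 < κ := by positivity
  have hκ1 : κ ≤ 1 / 100 := by
    rw [hκ]
    apply one_div_le_one_div_of_le (by norm_num)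
    linarith
  have hκC : C * κ ≤ 1 / 100 := by
    rw [hκ, mul_one_div, div_le_div_iff₀ (by positivity) (by norm_num)]
    linarith
  obtain ⟨N₀, hN₀⟩ := exists_nat_ge (2 / κ)
  refine ⟨κ / 2, κ ^ 3 / 64, by positivity, by positivity, N₀ + 100, ?_⟩
  intro N hN A hA hm hlg hsm s
  obtain ⟨A', hA', hsd, hen⟩ := eta N A hA
  set l : ℕ := ⌊κ * N⌋₊ with hl
  have hN1 : (100 : ℝ) ≤ N := by
    have : 100 ≤ N := by omega
    exact_mod_cast this
  have hN2 : 2 ≤ κ * N := by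
    have h1 : (N₀ : ℝ) ≤ N := by
      have : N₀ ≤ N := by omega
      exact_mod_cast this
    have h2 : 2 / κ ≤ N := hN₀.trans h1
    rw [div_le_iff₀ hκ0] at h2
    linarith
  have hl1 : (l : ℝ) ≤ κ * N := Nat.floor_le (by positivity)
  have hl2 : κ * N / 2 ≤ l := by
    have := (Nat.lt_floor_add_one (κ * (N : ℝ))).le
    rw [← hl] at this
    linarith
  have hl0 : 1 ≤ l := by
    have : (1 : ℝ) ≤ l := by linarith
    exact_mod_cast this
  have hlpos : (1 : ℝ) ≤ l := by exact_mod_cast hl0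
  have hNpos : (0 : ℝ) < N := by linarith
  have hN3 : (0 : ℝ) < (N : ℝ) ^ 3 := by positivity
  have hsd' : ((symmDiff A A').card : ℝ) ≤ κ ^ 3 / 64 * (N : ℝ) ^ 3 := by
    have : ((symmDiff A A').card : ℝ) ≤ (sm N A : ℝ) := by exact_mod_cast hsd
    exact this.trans hsm
  -- a tile in which at least seven eighths of the sites have spin `s`
  obtain ⟨z, hz, hz7⟩ : ∃ z ∈ tiles N l, 7 * (l : ℝ) ^ 3 ≤ 8 * (Pur.ns s A' z l : ℝ) := by
    by_contra hcon
    push Not at hcon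
    have h1 : (3 * (N : ℝ) ^ 3) ≤ (((Vb N).filter (fun x => (x ∈ A ↔ s = true))).card : ℝ) := by
      exact_mod_cast Pur.card_ge N A hA hm s
    have h2 : (((Vb N).filter (fun x => (x ∈ A ↔ s = true))).card : ℝ) ≤
        (((Vb N).filter (fun x => (x ∈ A' ↔ s = true))).card : ℝ) +
          ((symmDiff A A').card : ℝ) := by
      exact_mod_cast Pur.symm_le (Vb N) A A' s
    have h3 : (((Vb N).filter (fun x => (x ∈ A' ↔ s = true))).card : ℝ) ≤
        ∑ z ∈ tiles N l, (Pur.ns s A' z l : ℝ) + 6 * l * (2 * (N : ℝ) + 1) ^ 2 := by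
      exact_mod_cast Pur.total til N l hl0 A' s
    have h4 : ∑ z ∈ tiles N l, (Pur.ns s A' z l : ℝ) ≤
        ∑ z ∈ tiles N l, ((l : ℝ) ^ 3 / 8 + 5 * l * (Pur.bz N A' z l : ℝ)) :=
      Finset.sum_le_sum (fun z hz =>
        Pur.tile bpi N l hl0 A' z (Pur.mem_tiles hz) s (hcon z hz))
    rw [Finset.sum_add_distrib, ← Finset.mul_sum, Finset.sum_const, nsmul_eq_mul] at h4
    have h5 : (∑ z ∈ tiles N l, (Pur.bz N A' z l : ℝ)) ≤ C * (N : ℝ) ^ 2 := by
      have : (∑ z ∈ tiles N l, (Pur.bz N A' z l : ℝ)) ≤ (en N A' : ℝ) := by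
        exact_mod_cast Pur.sum_bz til N l hl0 A'
      rw [hen] at this
      exact this.trans hlg
    have h6 : ((tiles N l).card : ℝ) * (l : ℝ) ^ 3 ≤ (2 * (N : ℝ) + 1) ^ 3 := by
      exact_mod_cast (til N l hl0).2.1
    have h7 : 5 * (l : ℝ) * (∑ z ∈ tiles N l, (Pur.bz N A' z l : ℝ)) ≤
        5 * l * (C * (N : ℝ) ^ 2) := mul_le_mul_of_nonneg_left h5 (by positivity)
    have h8 : 5 * (l : ℝ) * (C * (N : ℝ) ^ 2) ≤ 5 / 100 * (N : ℝ) ^ 3 := by
      have : (l : ℝ) * C ≤ 1 / 100 * N := by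
        calc (l : ℝ) * C ≤ κ * N * C := mul_le_mul_of_nonneg_right hl1 hC.le
          _ = (C * κ) * N := by ring
          _ ≤ 1 / 100 * N := mul_le_mul_of_nonneg_right hκC hNpos.le
      calc 5 * (l : ℝ) * (C * (N : ℝ) ^ 2) = 5 * ((l : ℝ) * C) * (N : ℝ) ^ 2 := by ring
        _ ≤ 5 * (1 / 100 * N) * (N : ℝ) ^ 2 :=
            mul_le_mul_of_nonneg_right (by linarith) (by positivity)
        _ = _ := by ring
    have h9 : (l : ℝ) ≤ 1 / 100 * N :=
      hl1.trans (mul_le_mul_of_nonneg_right hκ1 hNpos.le)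
    have h10 : (2 * (N : ℝ) + 1) ^ 2 ≤ 5 * (N : ℝ) ^ 2 := by nlinarith
    have h11 : 6 * (l : ℝ) * (2 * (N : ℝ) + 1) ^ 2 ≤ 3 / 10 * (N : ℝ) ^ 3 := by
      calc 6 * (l : ℝ) * (2 * (N : ℝ) + 1) ^ 2 ≤ 6 * (1 / 100 * N) * (5 * (N : ℝ) ^ 2) :=
            mul_le_mul (by linarith) h10 (by positivity) (by positivity)
        _ = _ := by ring
    have h12 : (2 * (N : ℝ) + 1) ^ 3 ≤ 9 * (N : ℝ) ^ 3 := by
      have : (N : ℝ) ^ 2 * 100 ≤ (N : ℝ) ^ 3 := by
        calc (N : ℝ) ^ 2 * 100 ≤ (N : ℝ) ^ 2 * N := mul_le_mul_of_nonneg_left hN1 (by positivity)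
          _ = _ := by ring
      nlinarith
    have h13 : κ ^ 3 / 64 * (N : ℝ) ^ 3 ≤ 1 / 64 * (N : ℝ) ^ 3 := by
      refine mul_le_mul_of_nonneg_right ?_ hN3.le
      have : κ ^ 3 ≤ 1 := pow_le_one₀ hκ0.le (by linarith)
      linarith
    have h14 : ((tiles N l).card : ℝ) * ((l : ℝ) ^ 3 / 8) =
        (((tiles N l).card : ℝ) * (l : ℝ) ^ 3) / 8 := by ring
    linarith
  refine ⟨z, l, by linarith, Pur.mem_tiles hz, ?_⟩
  have h1 : (Pur.ns s A' z l : ℝ) ≤
      (((cube z l).filter (fun x => (x ∈ A ↔ s = true))).card : ℝ) +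
        ((symmDiff A A').card : ℝ) := by
    have := Pur.symm_le (cube z l) A' A s
    rw [symmDiff_comm] at this
    exact_mod_cast this
  have h2 : κ ^ 3 * (N : ℝ) ^ 3 / 8 ≤ (l : ℝ) ^ 3 := by
    have : (κ * N / 2) ^ 3 ≤ (l : ℝ) ^ 3 := pow_le_pow_left₀ (by positivity) hl2 3
    calc κ ^ 3 * (N : ℝ) ^ 3 / 8 = (κ * N / 2) ^ 3 := by ring
      _ ≤ _ := this
  have h3 : 3 * (l : ℝ) ^ 3 ≤
      4 * (((cube z l).filter (fun x => (x ∈ A ↔ s = true))).card : ℝ) := by
    have : κ ^ 3 / 64 * (N : ℝ) ^ 3 = κ ^ 3 * (N : ℝ) ^ 3 / 8 / 8 := by ring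
    linarith
  exact_mod_cast h3

end Pool.ISH
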